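import Mathlib
import Pool.Agent.H87.AGM2
import Pool.Agent.H87.AGM3

namespace Pool.Agent.Results.MP_9b8acd_an.No

open Filter Topology Pool.Agent.H87.AGM

/-- A real Banach space with a normalized almost greedy Markushevich basis that is a Schauder
basis in no ordering. -/
theorem result :
    ∃ (X : Type) (_ : NormedAddCommGroup X) (_ : NormedSpace ℝ X) (_ : CompleteSpace X)
      (e : ℕ → X) (e' : ℕ → X →L[ℝ] ℝ),
      (∀ i j : ℕ, e' i (e j) = if i = j then 1 else 0) ∧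
      (∀ i, ‖e i‖ = 1 ∧ ‖e' i‖ = 1) ∧
      Dense ((Submodule.span ℝ (Set.range e) : Submodule ℝ X) : Set X) ∧
      (∀ x : X, (∀ i : ℕ, e' i x = 0) → x = 0) ∧
      (∃ C : ℝ, ∀ (x : X) (A B : Finset ℕ),
        (∀ i ∈ A, ∀ j : ℕ, j ∉ A → ‖e' j x‖ ≤ ‖e' i x‖) → B.card ≤ A.card →
        ‖x - ∑ i ∈ A, e' i x • e i‖ ≤ C * ‖x - ∑ i ∈ B, e' i x • e i‖) ∧
      ∀ π : Equiv.Perm ℕ, ∃ x : X,
        ¬ Tendsto (fun n : ℕ => ∑ k ∈ Finset.range n, e' (π k) x • e (π k)) atTop (𝓝 x) := by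
  obtain ⟨κ, n, φ, h1, h2, h3⟩ := design
  refine ⟨X h1, inferInstance, inferInstance, inferInstance, e h1, co h1, co_e h1, fun i => ?_,
    dense h1, total h1, ⟨8, greedy h1⟩, fun π => not_forall.1 (not_schauder h1 h2 π (h3 π))⟩
  have a1 : ‖e h1 i‖ ≤ 1 := norm_le h1 _ zero_le_one (fun F => by
    simp only [co_e, ite_pow, one_pow, ne_eq, OfNat.ofNat_ne_zero, not_false_eq_true, zero_pow,
      Finset.sum_ite_eq']
    split_ifs <;> simp) fun k R => by
      convert lam_single (h1 k) R i with j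
      rw [co_e, Pi.single_apply]
  have a2 : ‖co h1 i‖ ≤ 1 := ContinuousLinearMap.opNorm_le_bound _ zero_le_one fun x => by
    have := sq_le h1 x {i}
    rw [Finset.sum_singleton] at this
    rw [one_mul]
    exact abs_le_of_sq_le_sq this (norm_nonneg _)
  have a3 := (co h1 i).le_opNorm (e h1 i)
  rw [co_e, if_pos rfl, norm_one] at a3
  constructor <;> nlinarith [norm_nonneg (e h1 i), norm_nonneg (co h1 i)]

end Pool.Agent.Results.MP_9b8acd_an.No
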